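import Pool.Agent.helper67.TPD.Spec

/-!
# Row tpd:KY4: quadruples
-/

set_option autoImplicit false

open Finset PowerSeries

noncomputable section

namespace Pool.Agent.TPD

open Finset Pool.Agent.EP Pool.Agent.PQ

lemma KY4_two_pow (b : ℕ) (hb : b % 2 = 1) (hb3 : 3 ≤ b) : 2 ^ b % 24 = 8 := by
  obtain ⟨c, rfl⟩ : ∃ c, b = 2 * c + 3 := ⟨(b - 3) / 2, by omega⟩
  induction c with
  | zero => norm_num
  | succ c ih =>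
    have h := ih (by omega) (by omega)
    have h2 : 2 ^ (2 * (c + 1) + 3) = 4 * 2 ^ (2 * c + 3) := by ring
    rw [h2]
    omega

lemma KY4_sq (u : ℕ) (hu : u.Coprime 6) : u ^ 2 % 24 = 1 := by
  have h2 : ¬ 2 ∣ u := fun h => by
    have h3 := Nat.dvd_gcd h (show 2 ∣ 6 by norm_num)
    rw [hu.gcd_eq_one] at h3
    omega
  have h3 : ¬ 3 ∣ u := fun h => by
    have h3 := Nat.dvd_gcd h (show 3 ∣ 6 by norm_num)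
    rw [hu.gcd_eq_one] at h3
    omega
  have h4 : u % 24 = 1 ∨ u % 24 = 5 ∨ u % 24 = 7 ∨ u % 24 = 11 ∨ u % 24 = 13 ∨ u % 24 = 17 ∨ u % 24 = 19 ∨ u % 24 = 23 := by
    omega
  rw [Nat.pow_mod]
  rcases h4 with h | h | h | h | h | h | h | h <;> rw [h] <;> norm_num

/-- the members of `uB` -/
lemma KY4_mem {b N u : ℕ} (hb : b % 2 = 1) (hb3 : 3 ≤ b) (h : u ∈ uB b N) :
    2 ^ b * u ^ 2 ≤ N ∧ (2 ^ b * u ^ 2) % 24 = 8 := by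
  unfold uB at h
  rw [Finset.mem_filter] at h
  refine ⟨h.2.2, ?_⟩
  rw [Nat.mul_mod, KY4_two_pow b hb hb3, KY4_sq u h.2.1]

lemma KY4_even {n : ℕ} (h : Even n) (x : ZMod 2) : n • x = 0 := by
  obtain ⟨c, rfl⟩ := h
  rw [add_nsmul, CharTwo.add_self_eq_zero]

/-- a sum over `uB` with a constant and a part depending on the sum variable -/
lemma KY4_sum (s : Finset ℕ) (hs : Even #s) (f g h : ℕ → ZMod 2) (x y : ZMod 2)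
    (hfg : ∀ u ∈ s, f u = g u) :
    ∑ u ∈ s, (f u + x + h u) = ∑ u ∈ s, (g u + y + h u) := by
  rw [Finset.sum_add_distrib, Finset.sum_add_distrib, Finset.sum_add_distrib, Finset.sum_add_distrib,
    Finset.sum_const, Finset.sum_const, KY4_even hs, KY4_even hs, Finset.sum_congr rfl hfg]

/-- the same, the constant at the end -/
lemma KY4_sum' (s : Finset ℕ) (hs : Even #s) (f g h : ℕ → ZMod 2) (x y : ZMod 2)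
    (hfg : ∀ u ∈ s, f u = g u) :
    ∑ u ∈ s, (f u + h u + x) = ∑ u ∈ s, (g u + h u + y) := by
  rw [Finset.sum_add_distrib, Finset.sum_add_distrib, Finset.sum_add_distrib, Finset.sum_add_distrib,
    Finset.sum_const, Finset.sum_const, KY4_even hs, KY4_even hs, Finset.sum_congr rfl hfg]

/-- the first sum does not depend on `k` in a class modulo `24 t` -/
lemma KY4_first (hRPE : RPE_stmt) (b t k₁ k₂ M : ℕ) (ρ φ : ℕ → ZMod 2) (hb : b % 2 = 1) (hb3 : 3 ≤ b)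
    (ht : 0 < t) (hρ : ∀ n, ρ (n + t) = ρ n) (hk₁ : k₁ % 24 = 7) (hM : M % 24 = 1)
    (hk : k₁ % (24 * t) = k₂ % (24 * t)) (hev : Even #(uB b M)) :
    ∑ u ∈ uB b M, (ρ ((k₁ * (M - 2 ^ b * u ^ 2) + 1) / 24) + φ k₁ + φ (M - 2 ^ b * u ^ 2)) =
      ∑ u ∈ uB b M, (ρ ((k₂ * (M - 2 ^ b * u ^ 2) + 1) / 24) + φ k₂ + φ (M - 2 ^ b * u ^ 2)) := by
  apply KY4_sum (uB b M) hev (fun u => ρ ((k₁ * (M - 2 ^ b * u ^ 2) + 1) / 24))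
    (fun u => ρ ((k₂ * (M - 2 ^ b * u ^ 2) + 1) / 24)) (fun u => φ (M - 2 ^ b * u ^ 2)) (φ k₁) (φ k₂)
  intro u hu
  obtain ⟨h1, h2⟩ := KY4_mem hb hb3 hu
  apply hRPE t ρ _ _ ht hρ
  · have h3 : (M - 2 ^ b * u ^ 2) % 24 = 17 := by omega
    rw [Nat.mul_mod, hk₁, h3]
  · exact Nat.ModEq.mul_right (M - 2 ^ b * u ^ 2) hk

/-- the second sum does not depend on `M` in a class modulo `24 t` -/
lemma KY4_second (hRPE : RPE_stmt) (b t k M₁ M₂ : ℕ) (ρ φ : ℕ → ZMod 2) (hb : b % 2 = 1) (hb3 : 3 ≤ b)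
    (ht : 0 < t) (hρ : ∀ n, ρ (n + t) = ρ n) (hk : k % 24 = 7) (hM₁ : M₁ % 24 = 1)
    (hM : M₁ % (24 * t) = M₂ % (24 * t)) (hev : Even #(uB b k)) :
    ∑ u ∈ uB b k, (ρ (((k - 2 ^ b * u ^ 2) * M₁ + 1) / 24) + φ (k - 2 ^ b * u ^ 2) + φ M₁) =
      ∑ u ∈ uB b k, (ρ (((k - 2 ^ b * u ^ 2) * M₂ + 1) / 24) + φ (k - 2 ^ b * u ^ 2) + φ M₂) := by
  apply KY4_sum' (uB b k) hev (fun u => ρ (((k - 2 ^ b * u ^ 2) * M₁ + 1) / 24))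
    (fun u => ρ (((k - 2 ^ b * u ^ 2) * M₂ + 1) / 24)) (fun u => φ (k - 2 ^ b * u ^ 2)) (φ M₁) (φ M₂)
  intro u hu
  obtain ⟨h1, h2⟩ := KY4_mem hb hb3 hu
  apply hRPE t ρ _ _ ht hρ
  · have h3 : (k - 2 ^ b * u ^ 2) % 24 = 23 := by omega
    rw [Nat.mul_mod, hM₁, h3]
  · exact Nat.ModEq.mul_left (k - 2 ^ b * u ^ 2) hM

theorem KY4 (hKY1 : KY1_stmt) (hRPE : RPE_stmt) : KY4_stmt := by
  intro b t A₁ A₂ C₁ C₂ P₁ P₂ R₁ R₂ ρ φ hb hb3 ht hρ hφ hP₁ hP₂ hR₁ hR₂ hk₁ hk₂ hM₁ hM₂ hk hM e₁ e₂ f₁ f₂ hA hC hRB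
  by_contra hcon
  rw [not_or, not_or, not_or] at hcon
  obtain ⟨n11, n12, n21, n22⟩ := hcon
  have hA₁ : A₁ ∈ ({A₁, A₂} : Finset ℕ) := by simp
  have hA₂ : A₂ ∈ ({A₁, A₂} : Finset ℕ) := by simp
  have hC₁ : C₁ ∈ ({C₁, C₂} : Finset ℕ) := by simp
  have hC₂ : C₂ ∈ ({C₁, C₂} : Finset ℕ) := by simp
  have hN₁ : C₁ * R₁ ∈ ({C₁ * R₁, C₂ * R₂} : Finset ℕ) := by simp
  have hN₂ : C₂ * R₂ ∈ ({C₁ * R₁, C₂ * R₂} : Finset ℕ) := by simp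
  have hL₁ : A₁ * P₁ ∈ ({A₁ * P₁, A₂ * P₂} : Finset ℕ) := by simp
  have hL₂ : A₂ * P₂ ∈ ({A₁ * P₁, A₂ * P₂} : Finset ℕ) := by simp
  have h11 := hKY1 b A₁ C₁ P₁ R₁ ρ φ hb hb3 hP₁ hR₁ hk₁ hM₁ hφ n11 (hA _ hA₁ _ hN₁) (hC _ hC₁ _ hL₁)
  have h12 := hKY1 b A₁ C₂ P₁ R₂ ρ φ hb hb3 hP₁ hR₂ hk₁ hM₂ hφ n12 (hA _ hA₁ _ hN₂) (hC _ hC₂ _ hL₁)
  have h21 := hKY1 b A₂ C₁ P₂ R₁ ρ φ hb hb3 hP₂ hR₁ hk₂ hM₁ hφ n21 (hA _ hA₂ _ hN₁) (hC _ hC₁ _ hL₂)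
  have h22 := hKY1 b A₂ C₂ P₂ R₂ ρ φ hb hb3 hP₂ hR₂ hk₂ hM₂ hφ n22 (hA _ hA₂ _ hN₂) (hC _ hC₂ _ hL₂)
  rw [KY4_first hRPE b t (A₁ * P₁) (A₂ * P₂) (C₁ * R₁) ρ φ hb hb3 ht hρ hk₁ hM₁ hk f₁,
    KY4_second hRPE b t (A₁ * P₁) (C₁ * R₁) (C₂ * R₂) ρ φ hb hb3 ht hρ hk₁ hM₁ hM e₁] at h11
  rw [KY4_first hRPE b t (A₁ * P₁) (A₂ * P₂) (C₂ * R₂) ρ φ hb hb3 ht hρ hk₁ hM₂ hk f₂] at h12
  rw [KY4_second hRPE b t (A₂ * P₂) (C₁ * R₁) (C₂ * R₂) ρ φ hb hb3 ht hρ hk₂ hM₁ hM e₂] at h21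
  rw [← h11, ← h12, ← h21, ← h22] at hRB
  have key : ∀ a b c d : ZMod 2, (a + c) + (b + c) + (a + d) + (b + d) = 0 := by decide
  rw [key] at hRB
  exact zero_ne_one hRB

end Pool.Agent.TPD
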